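import Pool.Agent.H.MP_0cad2f_co.helper11.Gauss2

/-!
Averaged translations: if all translates of a set along a segment lie in `W`, and a function on
`W` recovers the parameter up to `η`, then the set is small.
-/

set_option autoImplicit false

namespace Pool.Agent.H.MP_0cad2f_co.helper39

open MeasureTheory ProbabilityTheory Matrix Finset
open scoped NNReal ENNReal
open Pool.Agent.H.MP_0cad2f_co.helper47 Pool.Agent.H.MP_0cad2f_co.helper11.TD

variable {n d : ℕ}

/-- The abstract averaging argument. -/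
theorem average_aux {E : Type*} [MeasurableSpace E] [AddCommGroup E] [Module ℝ E]
    (P : Measure E) [SFinite P] (v : E) (hadd : Measurable fun p : E × ℝ => p.1 + p.2 • v)
    {near : Set E} (hnear : MeasurableSet near) {C : ℝ≥0∞} {t₁ t₀ η : ℝ} (ht₀ : 0 < t₀)
    (hshift : ∀ t ∈ Set.Icc t₁ (t₁ + t₀), ∀ H : E → ℝ≥0∞, Measurable H →
      ∫⁻ x in near, H (x + t • v) ∂P ≤ C * ∫⁻ x, H x ∂P)
    {S W : Set E} (hW : MeasurableSet W) {φ : E → ℝ} (hφ : Measurable φ)
    (hS : ∀ x ∈ S, x ∈ near ∧ ∀ t ∈ Set.Icc t₁ (t₁ + t₀),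
      x + t • v ∈ W ∧ |φ (x + t • v) - t| ≤ η) :
    ENNReal.ofReal t₀ * P S ≤ C * (ENNReal.ofReal (2 * η) * P W) := by
  classical
  set K : Set (E × ℝ) := {p | p.1 ∈ W ∧ |φ p.1 - p.2| ≤ η} with hK
  have hKm : MeasurableSet K := by
    have h0 : Measurable fun p : E × ℝ => |φ p.1 - p.2| :=
      ((hφ.comp measurable_fst).sub measurable_snd).abs
    exact (measurable_fst hW).inter (measurableSet_le h0 measurable_const)
  set F : E × ℝ → ℝ≥0∞ := K.indicator 1 with hF
  have hFm : Measurable F := measurable_one.indicator hKm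
  have hcomp : Measurable fun p : E × ℝ => F (p.1 + p.2 • v, p.2) :=
    hFm.comp (hadd.prodMk measurable_snd)
  set g : E → ℝ≥0∞ := fun x => ∫⁻ t in Set.Icc t₁ (t₁ + t₀), F (x + t • v, t) with hg
  have hgm : Measurable g := hcomp.lintegral_prod_right'
  have h1 : S ⊆ {x | ENNReal.ofReal t₀ ≤ g x} ∩ near := by
    intro x hx
    obtain ⟨hx1, hx2⟩ := hS x hx
    refine ⟨?_, hx1⟩
    have h2 : g x = ∫⁻ _t in Set.Icc t₁ (t₁ + t₀), 1 := by
      refine setLIntegral_congr_fun measurableSet_Icc fun t ht => ?_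
      have : (x + t • v, t) ∈ K := hx2 t ht
      simp only [hF]
      rw [Set.indicator_of_mem this]
      rfl
    rw [Set.mem_ofPred_eq, h2, setLIntegral_one, Real.volume_Icc]
    exact ENNReal.ofReal_le_ofReal (by linarith)
  have hgs : MeasurableSet {x | ENNReal.ofReal t₀ ≤ g x} := measurableSet_le measurable_const hgm
  calc ENNReal.ofReal t₀ * P S
      ≤ ENNReal.ofReal t₀ * P.restrict near {x | ENNReal.ofReal t₀ ≤ g x} := by
        refine mul_le_mul_right ?_ _
        rw [Measure.restrict_apply hgs]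
        exact measure_mono h1
    _ ≤ ∫⁻ x in near, g x ∂P := mul_meas_ge_le_lintegral hgm _
    _ = ∫⁻ t in Set.Icc t₁ (t₁ + t₀), ∫⁻ x in near, F (x + t • v, t) ∂P := by
        rw [hg]
        exact lintegral_lintegral_swap (f := fun (x : E) (t : ℝ) => F (x + t • v, t))
          hcomp.aemeasurable
    _ ≤ ∫⁻ t in Set.Icc t₁ (t₁ + t₀), C * ∫⁻ x, F (x, t) ∂P := by
        refine setLIntegral_mono' measurableSet_Icc fun t ht => ?_
        exact hshift t ht (fun y => F (y, t)) (hFm.comp measurable_prodMk_right)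
    _ ≤ ∫⁻ t : ℝ, C * ∫⁻ x, F (x, t) ∂P := setLIntegral_le_lintegral _ _
    _ = C * ∫⁻ t : ℝ, ∫⁻ x, F (x, t) ∂P :=
        lintegral_const_mul _ (hFm.comp measurable_swap).lintegral_prod_right'
    _ = C * ∫⁻ x, (∫⁻ t : ℝ, F (x, t)) ∂P := by
        congr 1
        exact lintegral_lintegral_swap (f := fun (t : ℝ) (x : E) => F (x, t))
          (hFm.comp measurable_swap).aemeasurable
    _ ≤ C * ∫⁻ x, W.indicator (fun _ => ENNReal.ofReal (2 * η)) x ∂P := by
        refine mul_le_mul_right (lintegral_mono fun x => ?_) _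
        by_cases hx : x ∈ W
        · rw [Set.indicator_of_mem hx]
          have h3 : ∀ t : ℝ, F (x, t) ≤ (Set.Icc (φ x - η) (φ x + η)).indicator 1 t := by
            intro t
            by_cases ht : (x, t) ∈ K
            · have h4 : |φ x - t| ≤ η := ht.2
              rw [abs_le] at h4
              have h5 : t ∈ Set.Icc (φ x - η) (φ x + η) := ⟨by linarith, by linarith⟩
              simp only [hF]
              rw [Set.indicator_of_mem ht, Set.indicator_of_mem h5]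
              simp
            · simp only [hF]
              rw [Set.indicator_of_notMem ht]
              exact zero_le
          refine (lintegral_mono h3).trans ?_
          rw [lintegral_indicator_one measurableSet_Icc, Real.volume_Icc]
          exact ENNReal.ofReal_le_ofReal (by linarith)
        · rw [Set.indicator_of_notMem hx]
          have h3 : ∀ t : ℝ, F (x, t) = 0 := by
            intro t
            simp only [hF]
            exact Set.indicator_of_notMem (fun h => hx h.1) _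
          simp [h3]
    _ = C * (ENNReal.ofReal (2 * η) * P W) := by
        rw [lintegral_indicator_const hW]

theorem exp_cost {e : ℝ} (he : e ≤ 1) : ENNReal.ofReal (Real.exp e) ≤ 3 := by
  rw [show (3 : ℝ≥0∞) = ENNReal.ofReal 3 by simp]
  refine ENNReal.ofReal_le_ofReal ((Real.exp_le_exp.mpr he).trans ?_)
  linarith [Real.exp_one_lt_d9]

theorem average_fin {X Y : ℝ≥0∞} {t₀ η : ℝ} (ht₀ : 0 < t₀)
    (h : ENNReal.ofReal t₀ * X ≤ 3 * (ENNReal.ofReal (2 * η) * Y)) :
    X ≤ ENNReal.ofReal (6 * η / t₀) * Y := by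
  have h0 : ENNReal.ofReal t₀ ≠ 0 := by simpa using ht₀
  have h1 : X = (ENNReal.ofReal t₀)⁻¹ * (ENNReal.ofReal t₀ * X) := by
    rw [← mul_assoc, ENNReal.inv_mul_cancel h0 ENNReal.ofReal_ne_top, one_mul]
  rw [h1]
  refine (mul_le_mul_right h _).trans (le_of_eq ?_)
  have h2 : ENNReal.ofReal (6 * η / t₀) = (ENNReal.ofReal t₀)⁻¹ * (3 * ENNReal.ofReal (2 * η)) := by
    rw [show (3 : ℝ≥0∞) = ENNReal.ofReal 3 by simp, ← ENNReal.ofReal_mul (by norm_num),
      ← ENNReal.ofReal_inv_of_pos ht₀, ← ENNReal.ofReal_mul (by positivity)]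
    congr 1
    ring
  rw [h2, mul_assoc, mul_assoc]

/-- The cost of one translation. -/
theorem cost_le {s Rg σ : ℝ} (hσ1 : σ ≤ 1) (hσ : 0 < σ) (hR : 0 ≤ Rg) (hs : 0 ≤ s)
    (h : s * (Rg + 1) ≤ σ ^ 2) : 2 * Rg * s + s ^ 2 ≤ 2 * (s * (Rg + 1)) := by
  have h1 : σ ^ 2 ≤ 1 := pow_le_one₀ hσ.le hσ1
  have h2 : s ≤ 1 := by nlinarith
  nlinarith

/-- (8a) Averaged translations, one vector. -/
theorem gau_average (c v : Fin d → ℝ) {σ Rg t₁ t₀ η : ℝ} (hσ : 0 < σ) (hσ1 : σ ≤ 1)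
    (hR : 0 ≤ Rg) (ht₁ : 0 ≤ t₁) (ht₀ : 0 < t₀)
    (hcost : (t₁ + t₀) * n2 v * (Rg + 1) ≤ σ ^ 2) {S W : Set (Fin d → ℝ)}
    (hW : MeasurableSet W) {φ : (Fin d → ℝ) → ℝ} (hφ : Measurable φ)
    (hS : ∀ x ∈ S, n2 (x - c) ≤ Rg ∧ ∀ t ∈ Set.Icc t₁ (t₁ + t₀),
      x + t • v ∈ W ∧ |φ (x + t • v) - t| ≤ η) :
    gau c σ S ≤ ENNReal.ofReal (6 * η / t₀) * gau c σ W := by
  apply average_fin ht₀
  have hn2 : Continuous fun x : Fin d → ℝ => n2 (x - c) := by
    unfold n2
    simp only [dotProduct]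
    fun_prop
  have hnear : MeasurableSet {x : Fin d → ℝ | n2 (x - c) ≤ Rg} :=
    measurableSet_le hn2.measurable measurable_const
  have hadd : Measurable fun p : (Fin d → ℝ) × ℝ => p.1 + p.2 • v := by
    have : Continuous fun p : (Fin d → ℝ) × ℝ => p.1 + p.2 • v := by fun_prop
    exact this.measurable
  refine average_aux (gau c σ) v hadd hnear ht₀ ?_ hW hφ hS
  intro t ht H hH
  refine (gau_shift c (t • v) hσ hR hH).trans ?_
  refine mul_le_mul_left (exp_cost ?_) _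
  have ht0 : 0 ≤ t := ht₁.trans ht.1
  rw [n2_smul, abs_of_nonneg ht0, div_le_one (by positivity)]
  have hv := n2_nonneg v
  have h1 : t * n2 v * (Rg + 1) ≤ σ ^ 2 := by
    refine le_trans ?_ hcost
    have := ht.2
    gcongr
  have h2 := cost_le hσ1 hσ hR (mul_nonneg ht0 hv) h1
  calc 2 * Rg * (t * n2 v) + (t * n2 v) ^ 2 ≤ 2 * (t * n2 v * (Rg + 1)) := h2
    _ ≤ 2 * σ ^ 2 := by linarith

/-- (8b) Averaged translations of the array. -/
theorem noise_average (c v : Fin n → Fin d → ℝ) {σ Rg t₁ t₀ η : ℝ} (hσ : 0 < σ) (hσ1 : σ ≤ 1)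
    (hR : 0 ≤ Rg) (ht₁ : 0 ≤ t₁) (ht₀ : 0 < t₀)
    (hcost : (t₁ + t₀) * (∑ i, n2 (v i)) * (Rg + 1) ≤ σ ^ 2) {S W : Set (Fin n → Fin d → ℝ)}
    (hW : MeasurableSet W) {φ : (Fin n → Fin d → ℝ) → ℝ} (hφ : Measurable φ)
    (hS : ∀ a ∈ S, (∀ i, n2 (a i - c i) ≤ Rg) ∧ ∀ t ∈ Set.Icc t₁ (t₁ + t₀),
      a + t • v ∈ W ∧ |φ (a + t • v) - t| ≤ η) :
    noise c σ S ≤ ENNReal.ofReal (6 * η / t₀) * noise c σ W := by
  apply average_fin ht₀
  have hn2 : ∀ i, Continuous fun a : Fin n → Fin d → ℝ => n2 (a i - c i) := by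
    intro i
    unfold n2
    simp only [dotProduct]
    fun_prop
  have hnear : MeasurableSet {a : Fin n → Fin d → ℝ | ∀ i, n2 (a i - c i) ≤ Rg} := by
    rw [Set.ofPred_forall]
    exact MeasurableSet.iInter fun i => measurableSet_le (hn2 i).measurable measurable_const
  have hadd : Measurable fun p : (Fin n → Fin d → ℝ) × ℝ => p.1 + p.2 • v := by
    have : Continuous fun p : (Fin n → Fin d → ℝ) × ℝ => p.1 + p.2 • v := by fun_prop
    exact this.measurable
  refine average_aux (noise c σ) v hadd hnear ht₀ ?_ hW hφ hS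
  intro t ht H hH
  refine (noise_shift c (t • v) hσ hH).trans ?_
  refine mul_le_mul_left (exp_cost ?_) _
  have ht0 : 0 ≤ t := ht₁.trans ht.1
  have hv : ∀ i, 0 ≤ n2 (v i) := fun i => n2_nonneg (v i)
  have hs0 : ∀ i, 0 ≤ t * n2 (v i) := fun i => mul_nonneg ht0 (hv i)
  have hsum0 : 0 ≤ ∑ i, n2 (v i) := Finset.sum_nonneg fun i _ => hv i
  have h1 : ∑ i, t * n2 (v i) * (Rg + 1) ≤ σ ^ 2 := by
    rw [← Finset.sum_mul, ← Finset.mul_sum]
    refine le_trans ?_ hcost
    have := ht.2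
    gcongr
  have h2 : ∀ i, 2 * Rg * n2 ((t • v) i) + n2 ((t • v) i) ^ 2 ≤
      2 * (t * n2 (v i) * (Rg + 1)) := by
    intro i
    rw [Pi.smul_apply, n2_smul, abs_of_nonneg ht0]
    refine cost_le hσ1 hσ hR (hs0 i) (le_trans ?_ h1)
    exact Finset.single_le_sum (f := fun i => t * n2 (v i) * (Rg + 1))
      (fun i _ => mul_nonneg (hs0 i) (by linarith)) (Finset.mem_univ i)
  rw [← Finset.sum_div, div_le_one (by positivity)]
  calc ∑ i, (2 * Rg * n2 ((t • v) i) + n2 ((t • v) i) ^ 2)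
      ≤ ∑ i, 2 * (t * n2 (v i) * (Rg + 1)) := Finset.sum_le_sum fun i _ => h2 i
    _ = 2 * ∑ i, t * n2 (v i) * (Rg + 1) := by rw [Finset.mul_sum]
    _ ≤ 2 * σ ^ 2 := by linarith

end Pool.Agent.H.MP_0cad2f_co.helper39
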