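import Pool.Agent.H.MP_0cad2f_co.helper39.Bad
import Pool.Agent.H.MP_0cad2f_co.helper94.Vtx
import Pool.Agent.H.MP_0cad2f_co.helper52.NuBound

/-!
Irregular bases are rare.
-/

set_option autoImplicit false

namespace Pool.Agent.H.MP_0cad2f_co.helper39

open MeasureTheory ProbabilityTheory Matrix Finset
open scoped NNReal ENNReal
open Pool.Agent.H.MP_0cad2f_co.helper47

variable {n d : ℕ}

/-- (7g) Irregular bases are rare. -/
theorem bad_bound (c : Fin n → Fin d → ℝ) (I : Idx n d) {σ A Rg ρ₁ T : ℝ} (hd : 2 ≤ d)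
    (hσ : 0 < σ) (hσd : σ ≤ 1 / (6 * Real.sqrt (d * Real.log 2))) (hc : ∀ i, n2 (c i) ≤ 1)
    (hRg : 0 < Rg) (hA : 1 + Rg ≤ A) (hρ : 0 < ρ₁)
    (hT : 4 * (1 + A * ρ₁) * (Rg + 1) ≤ σ ^ 2 * T) (hT2 : 200 * d ≤ σ ^ 2 * T) (m : ℕ) :
    noise c σ {a | Good a I ∧
        ¬ Reg c a (Finset.univ.filter fun i : Fin n => (i : ℕ) < m * d) I Rg ρ₁ T} ≤
      ENNReal.ofReal (12 * d ^ 3 * (Rg + 1) / (σ ^ 2 * ρ₁) +
          12 * d * (1 + A * ρ₁) * (Rg + 1) / (σ ^ 2 * T)) * noise c σ {a | Good a I} +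
        ENNReal.ofReal (n * (Real.sqrt 2 ^ d * Real.exp (-(Rg ^ 2 / (4 * σ ^ 2)))) +
          (1 / 2) ^ m) := by
  have hσ1 : σ ≤ 1 := sigma_le_one hd hσd
  have hd0 : (0 : ℝ) < d := by
    have : (2 : ℝ) ≤ d := by exact_mod_cast hd
    linarith
  exact bad_bound_of c I hd hσ hσd hc hRg hA hρ hT2 m
    (helper94.vtx_bound c hσ hσ1 hRg.le (div_pos hρ hd0) I)
    fun k => helper52.nu_bound c hσ hσ1 hd hRg.le hρ.le (fun i => by linarith [hc i]) hT I k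

end Pool.Agent.H.MP_0cad2f_co.helper39
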