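import Pool.Agent.H.MP_0cad2f_co.helper11.Gauss2
import Pool.Agent.H.MP_0cad2f_co.helper11.Obj
import Pool.Agent.H.MP_0cad2f_co.helper94.Block

/-!
Irregular bases are rare: the union bound.
-/

set_option autoImplicit false

namespace Pool.Agent.H.MP_0cad2f_co.helper39

open MeasureTheory ProbabilityTheory Matrix Finset
open scoped NNReal ENNReal
open Pool.Agent.H.MP_0cad2f_co.helper47 Pool.Agent.H.MP_0cad2f_co.helper11.TD

variable {n d : ℕ}

/-- The tail of one constraint in the array. -/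
theorem noise_tail (c : Fin n → Fin d → ℝ) {σ Rg : ℝ} (hσ : 0 < σ) (hR : 0 ≤ Rg) (i : Fin n) :
    noise c σ {a | Rg < n2 (a i - c i)} ≤
      ENNReal.ofReal (Real.sqrt 2 ^ d * Real.exp (-(Rg ^ 2 / (4 * σ ^ 2)))) := by
  have hn2 : Continuous fun x : Fin d → ℝ => n2 (x - c i) := by
    unfold n2
    simp only [dotProduct]
    fun_prop
  have hm : MeasurableSet {x : Fin d → ℝ | Rg < n2 (x - c i)} :=
    measurableSet_lt measurable_const hn2.measurable
  have h1 : noise c σ {a | Rg < n2 (a i - c i)} = gau (c i) σ {x | Rg < n2 (x - c i)} := by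
    have h2 := (measurePreserving_eval (fun i : Fin n => gau (c i) σ) i).measure_preimage
      hm.nullMeasurableSet
    exact h2
  rw [h1]
  exact gau_tail (c i) hσ hR

theorem sigma_le_one {σ : ℝ} (hd : 2 ≤ d)
    (hσd : σ ≤ 1 / (6 * Real.sqrt (d * Real.log 2))) : σ ≤ 1 := by
  refine hσd.trans ?_
  have hd2 : (2 : ℝ) ≤ d := by exact_mod_cast hd
  have h1 : (1 : ℝ) ≤ Real.sqrt (d * Real.log 2) := by
    rw [Real.one_le_sqrt]
    nlinarith [Real.log_two_gt_d9]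
  rw [div_le_one (by linarith)]
  linarith

/-- (7g) The union bound, given (8c) and (8d). -/
theorem bad_bound_of (c : Fin n → Fin d → ℝ) (I : Idx n d) {σ A Rg ρ₁ T : ℝ} (hd : 2 ≤ d)
    (hσ : 0 < σ) (hσd : σ ≤ 1 / (6 * Real.sqrt (d * Real.log 2))) (hc : ∀ i, n2 (c i) ≤ 1)
    (hRg : 0 < Rg) (hA : 1 + Rg ≤ A) (hρ : 0 < ρ₁)
    (hT2 : 200 * d ≤ σ ^ 2 * T) (m : ℕ)
    (hv : noise c σ {a | (∀ i, n2 (a i - c i) ≤ Rg) ∧ Good a I ∧ ρ₁ / d < ‖vtx a I‖} ≤
      ENNReal.ofReal (12 * d ^ 2 * (Rg + 1) / (σ ^ 2 * (ρ₁ / d))) * noise c σ {a | Good a I})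
    (hn : ∀ k, noise c σ {a | (∀ i, n2 (a i - c i) ≤ Rg) ∧ Good a I ∧ n2 (vtx a I) ≤ ρ₁ ∧
        T < n2 (nu a I k)} ≤
      ENNReal.ofReal (12 * (1 + A * ρ₁) * (Rg + 1) / (σ ^ 2 * T)) *
        noise c σ {a | Good a I}) :
    noise c σ {a | Good a I ∧
        ¬ Reg c a (Finset.univ.filter fun i : Fin n => (i : ℕ) < m * d) I Rg ρ₁ T} ≤
      ENNReal.ofReal (12 * d ^ 3 * (Rg + 1) / (σ ^ 2 * ρ₁) +
          12 * d * (1 + A * ρ₁) * (Rg + 1) / (σ ^ 2 * T)) * noise c σ {a | Good a I} +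
        ENNReal.ofReal (n * (Real.sqrt 2 ^ d * Real.exp (-(Rg ^ 2 / (4 * σ ^ 2)))) +
          (1 / 2) ^ m) := by
  have hd0 : (0 : ℝ) < d := by
    have : (2 : ℝ) ≤ d := by exact_mod_cast hd
    linarith
  have hσ2 : 0 < σ ^ 2 := by positivity
  have hT0 : 0 < T := by
    by_contra h
    have : σ ^ 2 * T ≤ 0 := mul_nonpos_of_nonneg_of_nonpos hσ2.le (not_lt.mp h)
    linarith
  have hA0 : 0 < A := by linarith
  set G : Finset (Fin n) := Finset.univ.filter fun i : Fin n => (i : ℕ) < m * d with hG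
  set S1 : Set (Fin n → Fin d → ℝ) :=
    {a | (∀ i, n2 (a i - c i) ≤ Rg) ∧ Good a I ∧ ρ₁ / d < ‖vtx a I‖} with hS1
  set S3 : Fin d → Set (Fin n → Fin d → ℝ) := fun k =>
    {a | (∀ i, n2 (a i - c i) ≤ Rg) ∧ Good a I ∧ n2 (vtx a I) ≤ ρ₁ ∧ T < n2 (nu a I k)} with hS3
  set S4 : Fin n → Set (Fin n → Fin d → ℝ) := fun i => {a | Rg < n2 (a i - c i)} with hS4
  set S5 : Set (Fin n → Fin d → ℝ) := {a | m * d ≤ n ∧ ¬ Spans a G T} with hS5
  set N := noise c σ {a | Good a I} with hN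
  have hsub : {a | Good a I ∧ ¬ Reg c a G I Rg ρ₁ T} ⊆
      (S1 ∪ ⋃ k, S3 k) ∪ ((⋃ i, S4 i) ∪ S5) := by
    rintro a ⟨ha1, ha2⟩
    by_cases h4 : ∀ i, n2 (a i - c i) ≤ Rg
    swap
    · right
      left
      push Not at h4
      obtain ⟨i, hi⟩ := h4
      exact Set.mem_iUnion.mpr ⟨i, hi⟩
    by_cases h1 : n2 (vtx a I) ≤ ρ₁
    swap
    · left
      left
      refine ⟨h4, ha1, ?_⟩
      rw [div_lt_iff₀ hd0, mul_comm]
      exact (not_le.mp h1).trans_le (n2_le _)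
    by_cases h3 : ∀ k, n2 (nu a I k) ≤ T
    swap
    · left
      right
      push Not at h3
      obtain ⟨k, hk⟩ := h3
      exact Set.mem_iUnion.mpr ⟨k, h4, ha1, h1, hk⟩
    right
    right
    have h5 : ¬ Spans a G T := fun h => ha2 ⟨h4, ha1, h1, h3, h⟩
    refine ⟨?_, h5⟩
    by_contra h6
    apply h5
    intro x
    refine spans_of_nu ha1.1 (fun k => ?_) hT0.le h3 x
    rw [hG, Finset.mem_filter]
    exact ⟨Finset.mem_univ _, (I k).isLt.trans (not_le.mp h6)⟩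
  have hb3 : noise c σ (⋃ k, S3 k) ≤
      ENNReal.ofReal (12 * d * (1 + A * ρ₁) * (Rg + 1) / (σ ^ 2 * T)) * N := by
    refine (measure_iUnion_le _).trans ?_
    rw [tsum_fintype]
    refine (Finset.sum_le_sum fun k _ => hn k).trans (le_of_eq ?_)
    rw [Finset.sum_const, Finset.card_univ, Fintype.card_fin, nsmul_eq_mul, ← mul_assoc]
    congr 1
    rw [show ((d : ℕ) : ℝ≥0∞) = ENNReal.ofReal d by simp, ← ENNReal.ofReal_mul hd0.le]
    congr 1
    ring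
  have hb4 : noise c σ (⋃ i, S4 i) ≤
      ENNReal.ofReal (n * (Real.sqrt 2 ^ d * Real.exp (-(Rg ^ 2 / (4 * σ ^ 2))))) := by
    refine (measure_iUnion_le _).trans ?_
    rw [tsum_fintype]
    refine (Finset.sum_le_sum fun i _ => noise_tail c hσ hRg.le i).trans (le_of_eq ?_)
    rw [Finset.sum_const, Finset.card_univ, Fintype.card_fin, nsmul_eq_mul,
      show ((n : ℕ) : ℝ≥0∞) = ENNReal.ofReal n by simp, ← ENNReal.ofReal_mul (Nat.cast_nonneg n)]
  have hb5 : noise c σ S5 ≤ ENNReal.ofReal ((1 / 2) ^ m) := by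
    by_cases hm : m * d ≤ n
    · refine (measure_mono fun a ha => ?_).trans
        (helper94.spans_fail c hσ (by omega) hσd hc hT2 hm)
      exact ha.2
    · have : S5 = ∅ := by
        ext a
        simp [hS5, hm]
      rw [this, measure_empty]
      exact zero_le
  have hb1 : noise c σ S1 ≤ ENNReal.ofReal (12 * d ^ 3 * (Rg + 1) / (σ ^ 2 * ρ₁)) * N := by
    refine hv.trans (le_of_eq ?_)
    congr 2
    field_simp
  have hx1 : 0 ≤ 12 * d ^ 3 * (Rg + 1) / (σ ^ 2 * ρ₁) := by positivity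
  have hx2 : 0 ≤ 12 * d * (1 + A * ρ₁) * (Rg + 1) / (σ ^ 2 * T) := by positivity
  have hx3 : 0 ≤ n * (Real.sqrt 2 ^ d * Real.exp (-(Rg ^ 2 / (4 * σ ^ 2)))) := by positivity
  rw [ENNReal.ofReal_add hx1 hx2, ENNReal.ofReal_add hx3 (by positivity), add_mul]
  calc noise c σ {a | Good a I ∧ ¬ Reg c a G I Rg ρ₁ T}
      ≤ noise c σ ((S1 ∪ ⋃ k, S3 k) ∪ ((⋃ i, S4 i) ∪ S5)) := measure_mono hsub
    _ ≤ (noise c σ S1 + noise c σ (⋃ k, S3 k)) +
        (noise c σ (⋃ i, S4 i) + noise c σ S5) :=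
        (measure_union_le _ _).trans (add_le_add (measure_union_le _ _) (measure_union_le _ _))
    _ ≤ _ := add_le_add (add_le_add hb1 hb3) (add_le_add hb4 hb5)

end Pool.Agent.H.MP_0cad2f_co.helper39
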